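import Pool.Agent.Helper35.HS3.GoalsC

/-!
# Project HS3, packet MOLL: mollification of a weak differential inequality
-/

namespace Pool.Agent.Helper94.HS3.MOLL

open MeasureTheory Set Filter Topology Metric
open scoped ContDiff
open Pool.Agent.Helper35.HS3

/-! ## Moments of the weight -/

theorem moment1 : ∫ y : E, kk y * y 0 = 0 := by
  have h := integral_pd (0 : Fin 3) contDiff_kk_sq hasCompactSupport_kk_sq
  have e : (fun x : E => pd 0 (fun y => kk y ^ 2) x) = fun x => (-4) * (kk x * x 0) := by
    funext x
    rw [pd_kk_sq]; ring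
  rw [e, integral_const_mul] at h
  linarith

theorem moment2 : ∫ y : E, kk y * (y 0) ^ 2 = k1 / 4 := by
  have h := integral_mul_pd (0 : Fin 3) contDiff_kk_sq hasCompactSupport_kk_sq
    (contDiff_coord 0 (n := 1))
  have e1 : (fun x : E => kk x ^ 2 * pd 0 (fun y : E => y 0) x) = fun x => kk x ^ 2 := by
    funext x
    rw [pd_coord]; simp
  have e2 : (fun x : E => x 0 * pd 0 (fun y => kk y ^ 2) x) = fun x => (-4) * (kk x * x 0 ^ 2) := by
    funext x
    rw [pd_kk_sq]; ring
  rw [e1, e2, integral_const_mul] at h
  unfold k1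
  linarith

/-! ## Second order Taylor bound -/

theorem taylor_le {G : ℝ → ℝ} (hG : ContDiff ℝ 2 G) (s η : ℝ) (hη : 0 < η) :
    ∀ᶠ τ in 𝓝 (0 : ℝ), G (s + τ) ≤ G s + deriv G s * τ + (deriv (deriv G) s / 2 + η) * τ ^ 2 := by
  have hG1 : ContDiff ℝ 1 (deriv G) := by
    have : ContDiff ℝ (1 + 1) G := hG.of_le (by norm_num)
    exact (contDiff_succ_iff_deriv.1 this).2.2
  have hd0 : ∀ x, HasDerivAt G (deriv G x) x := fun x =>
    (hG.differentiable (by norm_num) x).hasDerivAt
  have hd1 : ∀ x, HasDerivAt (deriv G) (deriv (deriv G) x) x := fun x =>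
    (hG1.differentiable (by norm_num) x).hasDerivAt
  set D := deriv (deriv G) s with hD
  set φ : ℝ → ℝ := fun τ => G s + deriv G s * τ + (D / 2 + η) * τ ^ 2 - G (s + τ) with hφ
  have h1 : ∀ τ, HasDerivAt φ (deriv G s + (D / 2 + η) * (2 * τ) - deriv G (s + τ)) τ := by
    intro τ
    have ha : HasDerivAt (fun τ : ℝ => G s + deriv G s * τ) (deriv G s) τ := by
      simpa using ((hasDerivAt_id τ).const_mul (deriv G s)).const_add (G s)
    have hb : HasDerivAt (fun τ : ℝ => (D / 2 + η) * τ ^ 2) ((D / 2 + η) * (2 * τ)) τ := by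
      simpa using (hasDerivAt_pow 2 τ).const_mul (D / 2 + η)
    have hc : HasDerivAt (fun τ : ℝ => G (s + τ)) (deriv G (s + τ)) τ :=
      (hd0 (s + τ)).comp_const_add s τ
    exact (ha.add hb).sub hc
  have hφ1 : deriv φ = fun τ => deriv G s + (D / 2 + η) * (2 * τ) - deriv G (s + τ) :=
    funext fun τ => (h1 τ).deriv
  have h2 : HasDerivAt (deriv φ) (2 * η) 0 := by
    rw [hφ1]
    have hb : HasDerivAt (fun τ : ℝ => deriv G s + (D / 2 + η) * (2 * τ)) ((D / 2 + η) * 2) 0 := by
      simpa using (((hasDerivAt_id (0 : ℝ)).const_mul 2).const_mul (D / 2 + η)).const_add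
        (deriv G s)
    have hc : HasDerivAt (fun τ : ℝ => deriv G (s + τ)) D 0 := by
      have := (hd1 (s + 0)).comp_const_add s 0
      simpa using this
    refine (hb.sub hc).congr_deriv ?_
    ring
  have hmin : IsLocalMin φ 0 := by
    refine isLocalMin_of_deriv_deriv_pos ?_ ?_ (h1 0).continuousAt
    · rw [h2.deriv]; positivity
    · rw [(h1 0).deriv]; simp
  filter_upwards [hmin] with τ hτ
  have e0 : φ 0 = 0 := by simp [hφ]
  rw [e0] at hτ
  simp only [hφ] at hτ
  linarith

/-- The pointwise conclusion from the weighted inequality. -/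
theorem second_deriv_ge {G : ℝ → ℝ} (hG : ContDiff ℝ 2 G) (s c M : ℝ) (hM : 0 ≤ M)
    (hw : ∀ r : ℝ, 0 < r → k0 * G s + (c - M * r) * k1 * r ^ 2 / 8 ≤
      ∫ y : E, kk y * G (s + r * y 0)) : c ≤ deriv (deriv G) s := by
  refine le_of_forall_pos_le_add fun η' hη' => ?_
  set η := η' / 3 with hη
  have hη0 : 0 < η := by positivity
  obtain ⟨r₀, hr₀, hr₁⟩ := Metric.eventually_nhds_iff.1 (taylor_le hG s η hη0)
  set r := min (r₀ / 2) (η / (M + 1)) with hr
  have hr0 : 0 < r := lt_min (by positivity) (by positivity)
  have hrr : r < r₀ := lt_of_le_of_lt (min_le_left _ _) (by linarith)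
  have hMr : M * r ≤ η := by
    have h1 : r ≤ η / (M + 1) := min_le_right _ _
    have h2 : M * r ≤ (M + 1) * r := by nlinarith
    have h3 : (M + 1) * r ≤ (M + 1) * (η / (M + 1)) := mul_le_mul_of_nonneg_left h1 (by linarith)
    have h4 : (M + 1) * (η / (M + 1)) = η := by field_simp
    linarith
  set D := deriv (deriv G) s with hD
  have hc0 : Continuous fun y : E => y 0 := (contDiff_coord 0 (n := 0)).continuous
  have hup : ∫ y : E, kk y * G (s + r * y 0) ≤
      ∫ y : E, (kk y * G s + (deriv G s * r) * (kk y * y 0)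
        + ((D / 2 + η) * r ^ 2) * (kk y * (y 0) ^ 2)) := by
    refine integral_mono ?_ ?_ fun y => ?_
    · exact integrable_kk_mul (hG.continuous.comp (continuous_const.add (continuous_const.mul hc0)))
    · exact ((integrable_kk_mul continuous_const).add
        ((integrable_kk_mul hc0).const_mul _)).add ((integrable_kk_mul (hc0.pow 2)).const_mul _)
    · by_cases hy : 1 ≤ ‖y‖
      · simp only [kk_eq_zero hy]; simp
      · push Not at hy
        have h5 : dist (r * y 0) 0 < r₀ := by
          rw [Real.dist_eq, sub_zero, abs_mul, abs_of_pos hr0]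
          have := abs_coord_le y 0
          nlinarith [abs_nonneg (y 0)]
        have h6 := hr₁ h5
        have h7 := mul_le_mul_of_nonneg_left h6 (kk_nonneg y)
        refine h7.trans (le_of_eq ?_)
        ring
  have hsplit : ∫ y : E, (kk y * G s + (deriv G s * r) * (kk y * y 0)
        + ((D / 2 + η) * r ^ 2) * (kk y * (y 0) ^ 2)) =
      k0 * G s + (D / 2 + η) * r ^ 2 * (k1 / 4) := by
    have i1 : Integrable fun y : E => kk y * G s := integrable_kk_mul continuous_const
    have i2 : Integrable fun y : E => (deriv G s * r) * (kk y * y 0) :=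
      (integrable_kk_mul hc0).const_mul _
    have i3 : Integrable fun y : E => ((D / 2 + η) * r ^ 2) * (kk y * (y 0) ^ 2) :=
      (integrable_kk_mul (hc0.pow 2)).const_mul _
    have i12 : Integrable fun y : E => kk y * G s + (deriv G s * r) * (kk y * y 0) := i1.add i2
    rw [integral_add i12 i3, integral_add i1 i2, integral_const_mul, integral_const_mul,
      moment1, moment2, integral_mul_const]
    unfold k0
    ring
  have h8 := (hw r hr0).trans hup
  rw [hsplit] at h8
  have hk1 := k1_pos
  have h9 : (c - M * r) * (k1 * r ^ 2 / 8) ≤ (D + 2 * η) * (k1 * r ^ 2 / 8) := by nlinarith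
  have h10 : c - M * r ≤ D + 2 * η := le_of_mul_le_mul_right h9 (by positivity)
  have h11 : 3 * η = η' := by rw [hη]; ring
  linarith

/-! ## The mollification -/

theorem proof : MOLL_stmt := by
  intro g h L M hL hM hg hh h0 hw ε hε
  have hgc : Continuous g := by
    have : LipschitzWith ⟨L, hL⟩ g := LipschitzWith.of_dist_le_mul fun s t => by
      rw [Real.dist_eq, Real.dist_eq]; exact hg s t
    exact this.continuous
  set δ := ε / (L + M + 1) with hδ
  have hLM : 0 < L + M + 1 := by linarith
  have hδ0 : 0 < δ := by positivity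
  have hδe : (L + M + 1) * δ = ε := by rw [hδ]; field_simp
  have hLδ : L * δ ≤ ε := by nlinarith
  have hMδ : M * δ ≤ ε := by nlinarith
  let φ : ContDiffBump (0 : ℝ) := ⟨δ / 2, δ, by positivity, by linarith⟩
  set ρ : ℝ → ℝ := φ.normed volume with hρ
  have hρ0 : ∀ t, 0 ≤ ρ t := fun t => φ.nonneg_normed t
  have hρ1 : ∫ t, ρ t = 1 := φ.integral_normed
  have hρc : HasCompactSupport ρ := φ.hasCompactSupport_normed
  have hρs : ContDiff ℝ 2 ρ := φ.contDiff_normed
  have hρz : ∀ t, δ ≤ |t| → ρ t = 0 := by
    intro t ht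
    have h1 : t ∉ Function.support ρ := by
      rw [hρ, φ.support_normed_eq]
      simp only [mem_ball, dist_zero_right, Real.norm_eq_abs, not_lt]
      exact ht
    exact Function.notMem_support.1 h1
  set G : ℝ → ℝ := fun s => ∫ t, ρ t * g (s - t) with hG
  have hGC : ContDiff ℝ 2 G := by
    have h1 := hρc.contDiff_convolution_left (μ := (volume : Measure ℝ)) (n := 2)
      (ContinuousLinearMap.lsmul ℝ ℝ) hρs hgc.locallyIntegrable
    exact h1
  have hρgi : ∀ s, Integrable fun t => ρ t * g (s - t) := fun s =>
    (hρs.continuous.mul (hgc.comp (continuous_const.sub continuous_id))).integrable_of_hasCompactSupport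
      hρc.mul_right
  have hρi : Integrable ρ := hρs.continuous.integrable_of_hasCompactSupport hρc
  have hGg : ∀ s, |G s - g s| ≤ ε := by
    intro s
    have h1 : G s - g s = ∫ t, ρ t * (g (s - t) - g s) := by
      have h2 : (∫ t, ρ t * (g (s - t) - g s)) = (∫ t, ρ t * g (s - t)) - ∫ t, ρ t * g s := by
        rw [← integral_sub (hρgi s) (hρi.mul_const _)]
        refine integral_congr_ae (Eventually.of_forall fun t => ?_)
        simp only
        ring
      rw [h2, integral_mul_const, hρ1, one_mul]
    rw [h1]
    have h3 : ∀ t, ‖ρ t * (g (s - t) - g s)‖ ≤ ρ t * ε := by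
      intro t
      rw [Real.norm_eq_abs, abs_mul, abs_of_nonneg (hρ0 t)]
      by_cases ht : δ ≤ |t|
      · rw [hρz t ht]; simp
      · push Not at ht
        refine mul_le_mul_of_nonneg_left ?_ (hρ0 t)
        have h4 := hg (s - t) s
        have h5 : |s - t - s| = |t| := by
          rw [show s - t - s = -t by ring, abs_neg]
        rw [h5] at h4
        have h6 : L * |t| ≤ L * δ := mul_le_mul_of_nonneg_left ht.le hL
        linarith
    have h7 := norm_integral_le_of_norm_le (hρi.mul_const ε) (Eventually.of_forall h3)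
    rw [integral_mul_const, hρ1, one_mul, Real.norm_eq_abs] at h7
    exact h7
  -- the weighted inequality for `G`
  have hwG : ∀ s r : ℝ, 0 < r → k0 * G s + (max 0 (h s - M * δ) - M * r) * k1 * r ^ 2 / 8 ≤
      ∫ y : E, kk y * G (s + r * y 0) := by
    intro s r hr
    set c := max 0 (h s - M * δ) with hc
    have hc0 : Continuous fun y : E => y 0 := (contDiff_coord 0 (n := 0)).continuous
    have hF : Integrable (fun p : ℝ × E => ρ p.1 * (kk p.2 * g (s - p.1 + r * p.2 0)))
        ((volume : Measure ℝ).prod (volume : Measure E)) := by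
      refine Continuous.integrable_of_hasCompactSupport ?_ ?_
      · exact (hρs.continuous.comp continuous_fst).mul ((continuous_kk.comp continuous_snd).mul
          (hgc.comp ((continuous_const.sub continuous_fst).add
            (continuous_const.mul (hc0.comp continuous_snd)))))
      · refine HasCompactSupport.intro
          ((isCompact_closedBall (0 : ℝ) δ).prod (isCompact_closedBall (0 : E) 1)) fun p hp => ?_
        by_cases h1 : |p.1| ≤ δ
        · have h2 : ¬ ‖p.2‖ ≤ 1 := by
            intro h2
            apply hp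
            refine ⟨?_, ?_⟩
            · simpa using h1
            · simpa using h2
          rw [kk_eq_zero (not_le.1 h2).le]; simp
        · rw [hρz p.1 (not_le.1 h1).le]; simp
    have h1 : ∀ t, ρ t * (k0 * g (s - t) + (c - M * r) * k1 * r ^ 2 / 8) ≤
        ∫ y : E, ρ t * (kk y * g (s - t + r * y 0)) := by
      intro t
      rw [integral_const_mul]
      by_cases ht : δ ≤ |t|
      · rw [hρz t ht]; simp
      · push Not at ht
        refine mul_le_mul_of_nonneg_left ?_ (hρ0 t)
        refine le_trans ?_ (hw (s - t) r hr)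
        have h4 := hh s (s - t)
        have h5 : |s - (s - t)| = |t| := by
          rw [show s - (s - t) = t by ring]
        rw [h5] at h4
        have h6 : M * |t| ≤ M * δ := mul_le_mul_of_nonneg_left ht.le hM
        have h7 : h s - h (s - t) ≤ M * δ := ((le_abs_self _).trans h4).trans h6
        have h8 : c ≤ h (s - t) := max_le (h0 _) (by linarith)
        have hk1 := k1_pos
        have h9 : (c - M * r) * (k1 * r ^ 2 / 8) ≤ (h (s - t) - M * r) * (k1 * r ^ 2 / 8) :=
          mul_le_mul_of_nonneg_right (by linarith) (by positivity)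
        linarith
    have i1 : Integrable fun t => ρ t * (k0 * g (s - t) + (c - M * r) * k1 * r ^ 2 / 8) :=
      (hρs.continuous.mul ((continuous_const.mul (hgc.comp (continuous_const.sub
        continuous_id))).add continuous_const)).integrable_of_hasCompactSupport hρc.mul_right
    have h2 := integral_mono i1 hF.integral_prod_left h1
    have h3 : ∫ t, ρ t * (k0 * g (s - t) + (c - M * r) * k1 * r ^ 2 / 8) =
        k0 * G s + (c - M * r) * k1 * r ^ 2 / 8 := by
      have e : (fun t => ρ t * (k0 * g (s - t) + (c - M * r) * k1 * r ^ 2 / 8)) =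
          fun t => k0 * (ρ t * g (s - t)) + ρ t * ((c - M * r) * k1 * r ^ 2 / 8) := by
        funext t; ring
      rw [e, integral_add ((hρgi s).const_mul _) (hρi.mul_const _), integral_const_mul,
        integral_mul_const, hρ1, one_mul]
    have h4 : ∫ t, ∫ y : E, ρ t * (kk y * g (s - t + r * y 0)) =
        ∫ y : E, kk y * G (s + r * y 0) := by
      rw [integral_integral_swap hF]
      refine integral_congr_ae (Eventually.of_forall fun y => ?_)
      simp only [hG]
      rw [← integral_const_mul]
      refine integral_congr_ae (Eventually.of_forall fun t => ?_)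
      simp only
      rw [show s - t + r * y 0 = s + r * y 0 - t by ring]
      ring
    rw [h3] at h2
    refine h2.trans (le_of_eq h4)
  refine ⟨G, hGC, hGg, fun s => ?_, fun s => ?_⟩
  · exact (le_max_left _ _).trans (second_deriv_ge hGC s _ M hM (hwG s))
  · have h1 := (le_max_right 0 (h s - M * δ)).trans (second_deriv_ge hGC s _ M hM (hwG s))
    linarith

end Pool.Agent.Helper94.HS3.MOLL
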